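import Pool.Agent.Helper54.R1.Goals

set_option autoImplicit false

/-! # Region R1 of MP_a8383f_co, packet W2 -/

namespace Pool.Agent.Helper65.R1

open Real Pool.Agent.Helper66.Kiss Pool.Agent.Helper54.R1

theorem T0_bounds : π / 4 ≤ T0 ∧ T0 ≤ π / 3 := by
  have h3 : (0 : ℝ) < √3 := by positivity
  have hs : √3 ^ 2 = 3 := Real.sq_sqrt (by norm_num)
  have h2 : √2 ^ 2 = 2 := Real.sq_sqrt (by norm_num)
  have h2p : (0 : ℝ) < √2 := by positivity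
  constructor
  · have : arccos (√2 / 2) = π / 4 := by
      rw [← Real.cos_pi_div_four, Real.arccos_cos (by positivity) (by linarith [Real.pi_pos])]
    rw [← this]
    unfold T0
    refine Real.arccos_le_arccos ?_
    rw [div_le_div_iff₀ h3 (by norm_num)]
    have : (2 : ℝ) ≤ √2 * √3 := by
      rw [← Real.sqrt_mul (by norm_num)]
      exact Real.le_sqrt_of_sq_le (by norm_num)
    linarith
  · have : arccos (1 / 2) = π / 3 := by
      rw [← Real.cos_pi_div_three, Real.arccos_cos (by positivity) (by linarith [Real.pi_pos])]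
    rw [← this]
    unfold T0
    refine Real.arccos_le_arccos ?_
    rw [div_le_div_iff₀ (by norm_num) h3]
    nlinarith

theorem cos_T0 : cos T0 = 1 / √3 := by
  have h3 : (0 : ℝ) < √3 := by positivity
  have h31 : (1 : ℝ) ≤ √3 := Real.one_le_sqrt.2 (by norm_num)
  unfold T0
  refine Real.cos_arccos ?_ ?_
  · have : 0 ≤ 1 / √3 := by positivity
    linarith
  · rw [div_le_one h3]; exact h31

theorem cos_sq_T0 : cos T0 ^ 2 = 1 / 3 := by
  rw [cos_T0, div_pow, Real.sq_sqrt (by norm_num)]; norm_num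

theorem cos_two_T0 : cos (2 * T0) = -(1 / 3) := by
  rw [Real.cos_two_mul, cos_sq_T0]; norm_num

theorem sin_two_T0 : sin (2 * T0) = 2 * √2 / 3 := by
  have h := Real.sin_sq_add_cos_sq (2 * T0)
  rw [cos_two_T0] at h
  have hb := T0_bounds
  have hn : 0 ≤ sin (2 * T0) :=
    Real.sin_nonneg_of_nonneg_of_le_pi (by linarith [Real.pi_pos]) (by linarith [Real.pi_pos])
  have h2 : √2 ^ 2 = 2 := Real.sq_sqrt (by norm_num)
  have h4 : sin (2 * T0) ^ 2 = (2 * √2 / 3) ^ 2 := by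
    rw [div_pow, mul_pow, h2]; linarith
  exact (sq_eq_sq₀ hn (by positivity)).1 h4

theorem mono_key {u v k : ℝ} (hu : 0 ≤ u) (hv : 0 ≤ v) (huk : u ≤ k) (hvk : v ≤ k) (a b : ℕ) :
    u * (u ^ a * v ^ b) ≤ u * (k ^ a * k ^ b) ∧ 0 ≤ u * (u ^ a * v ^ b) := by
  have hk : 0 ≤ k := hu.trans huk
  constructor
  · gcongr
  · positivity

/-- The polynomial inequality for the four sign patterns. -/
theorem poly_ineq {ε ε' τ : ℝ} (h1 : |ε| ≤ 3 / 256) (h2 : |ε'| ≤ 3 / 256)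
    (hτ : τ = -(2 / 3) * (ε + ε') - 1 / 40 * (|ε| + |ε'|)) :
    9 * (1 / 4 + (ε + ε') / 2 - ε * ε') ^ 2 ≤
      (1 - 4 * τ + 338 / 100 * τ ^ 2) *
        (9 / 16 + 3 / 4 * (ε + ε') - 3 / 4 * (ε ^ 2 + ε' ^ 2) + ε * ε' - ε * ε' * (ε + ε')) := by
  obtain ⟨hl1, hr1⟩ := abs_le.1 h1
  obtain ⟨hl2, hr2⟩ := abs_le.1 h2
  have main : ∀ (a b : ℝ) (s t : ℝ), 0 ≤ a → 0 ≤ b → a ≤ 3 / 256 → b ≤ 3 / 256 →
      (s = 1 ∨ s = -1) → (t = 1 ∨ t = -1) →
      9 * (1 / 4 + (s * a + t * b) / 2 - (s * a) * (t * b)) ^ 2 ≤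
      (1 - 4 * (-(2 / 3) * (s * a + t * b) - 1 / 40 * (a + b)) +
          338 / 100 * (-(2 / 3) * (s * a + t * b) - 1 / 40 * (a + b)) ^ 2) *
        (9 / 16 + 3 / 4 * (s * a + t * b) - 3 / 4 * ((s * a) ^ 2 + (t * b) ^ 2) +
          (s * a) * (t * b) - (s * a) * (t * b) * (s * a + t * b)) := by
    intro a b s t ha hb hak hbk hs ht
    have K := mono_key ha hb hak hbk
    have K' := mono_key hb ha hbk hak
    have a1 := K 1 0
    have a2 := K 2 0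
    have a3 := K 3 0
    have a4 := K 4 0
    have b1 := K' 1 0
    have b2 := K' 2 0
    have b3 := K' 3 0
    have b4 := K' 4 0
    have c11 := K 0 1
    have c11' := K' 0 1
    have c21 := K 1 1
    have c12 := K 0 2
    have c31 := K 2 1
    have c22 := K 1 2
    have c13 := K 0 3
    have c41 := K 3 1
    have c32 := K 2 2
    have c23 := K 1 3
    have c14 := K 0 4
    rcases hs with rfl | rfl <;> rcases ht with rfl | rfl <;>
    linarith [a1.1, a1.2, a2.1, a2.2, a3.1, a3.2, a4.1, a4.2, b1.1, b1.2, b2.1, b2.2, b3.1, b3.2,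
      b4.1, b4.2, c11.1, c11.2, c11'.1, c21.1, c21.2, c12.1, c12.2, c31.1, c31.2, c22.1, c22.2,
      c13.1, c13.2, c41.1, c41.2, c32.1, c32.2, c23.1, c23.2, c14.1, c14.2]
  obtain ⟨s, hs, e1⟩ : ∃ s : ℝ, (s = 1 ∨ s = -1) ∧ ε = s * |ε| := by
    rcases le_total 0 ε with h | h
    · exact ⟨1, Or.inl rfl, by rw [abs_of_nonneg h]; ring⟩
    · exact ⟨-1, Or.inr rfl, by rw [abs_of_nonpos h]; ring⟩
  obtain ⟨t, ht, e2⟩ : ∃ s : ℝ, (s = 1 ∨ s = -1) ∧ ε' = s * |ε'| := by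
    rcases le_total 0 ε' with h | h
    · exact ⟨1, Or.inl rfl, by rw [abs_of_nonneg h]; ring⟩
    · exact ⟨-1, Or.inr rfl, by rw [abs_of_nonpos h]; ring⟩
  have := main |ε| |ε'| s t (abs_nonneg _) (abs_nonneg _) h1 h2 hs ht
  rw [← e1, ← e2] at this
  rw [hτ]
  exact this

theorem w2 : W2_stmt := by
  intro ε ε' h1 h2
  obtain ⟨hl1, hr1⟩ := abs_le.1 h1
  obtain ⟨hl2, hr2⟩ := abs_le.1 h2
  obtain ⟨τ, hτ⟩ : ∃ τ, τ = F2 ε ε' := ⟨_, rfl⟩
  have hτ' : τ = -(2 / 3) * (ε + ε') - 1 / 40 * (|ε| + |ε'|) := hτ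
  have hτb : |τ| ≤ 1 / 60 := by
    rw [hτ', abs_le]
    constructor <;> nlinarith [abs_nonneg ε, abs_nonneg ε']
  obtain ⟨hτl, hτr⟩ := abs_le.1 hτb
  have h2p : (0 : ℝ) < √2 := by positivity
  have h22 : √2 ^ 2 = 2 := Real.sq_sqrt (by norm_num)
  have h21 : 1 ≤ √2 := Real.one_le_sqrt.2 (by norm_num)
  obtain ⟨x, hx⟩ : ∃ x, x = τ / √2 := ⟨_, rfl⟩
  have hxτ : √2 * x = τ := by rw [hx]; field_simp
  have hxx : x ^ 2 = τ ^ 2 / 2 := by rw [hx, div_pow, h22]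
  have hxb : |x| ≤ 1 / 60 := by
    rw [hx, abs_div, abs_of_pos h2p, div_le_iff₀ h2p]
    nlinarith
  obtain ⟨hxl, hxr⟩ := abs_le.1 hxb
  rw [← hτ, ← hx]
  -- the cosine
  have hcos : cos (π - 2 * T0 + x) = (cos x - 2 * √2 * sin x) / 3 := by
    have e : π - 2 * T0 + x = π - (2 * T0 - x) := by ring
    rw [e, Real.cos_pi_sub, Real.cos_sub, cos_two_T0, sin_two_T0]
    ring
  have hc : 1 - τ ^ 2 / 4 ≤ cos x := by
    have := Real.one_sub_sq_div_two_le_cos (x := x)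
    rw [hxx] at this
    linarith
  have hsn : 2 * √2 * sin x ≤ 2 * τ + τ ^ 2 / 100 := by
    rcases le_total 0 x with h | h
    · have := Real.sin_le h
      nlinarith [sq_nonneg τ]
    · rcases eq_or_lt_of_le h with h0 | h0
      · rw [h0] at hxτ ⊢
        simp only [Real.sin_zero, mul_zero] at hxτ ⊢
        rw [← hxτ]; norm_num
      · have h5 := Real.sin_gt_sub_cube (x := -x) (by linarith)
        rw [Real.sin_neg] at h5
        have h6 : sin x ≤ x - x ^ 3 / 4 := by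
          have hp : 0 ≤ (-x) ^ 3 := pow_nonneg (by linarith) 3
          have : (-x) ^ 3 = -x ^ 3 := by ring
          rw [this] at h5 hp
          linarith
        have h7 : 2 * √2 * (-(x ^ 3) / 4) ≤ τ ^ 2 / 100 := by
          have e : 2 * √2 * (-(x ^ 3) / 4) = -τ * (τ ^ 2 / 2) / 2 := by
            rw [← hxx, ← hxτ]; ring
          rw [e]
          nlinarith [sq_nonneg τ]
        have h8 : 2 * √2 * sin x ≤ 2 * √2 * (x - x ^ 3 / 4) := by gcongr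
        calc _ ≤ _ := h8
          _ = 2 * (√2 * x) + 2 * √2 * (-(x ^ 3) / 4) := by ring
          _ ≤ _ := by rw [hxτ]; linarith
  have hR : 1 - 2 * τ - 3 / 10 * τ ^ 2 ≤ cos x - 2 * √2 * sin x := by nlinarith [sq_nonneg τ]
  have hRpos : 0 < 1 - 2 * τ - 3 / 10 * τ ^ 2 := by nlinarith
  have hA : 0 < 1 - (1 / 2 - ε) ^ 2 := by nlinarith
  have hB : 0 < 1 - (1 / 2 - ε') ^ 2 := by nlinarith
  -- the main inequality
  have hpoly := poly_ineq h1 h2 hτ'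
  have hR2 : 1 - 4 * τ + 338 / 100 * τ ^ 2 ≤ (1 - 2 * τ - 3 / 10 * τ ^ 2) ^ 2 := by
    nlinarith [sq_nonneg τ, mul_nonneg (sq_nonneg τ) (by linarith : 0 ≤ τ + 1 / 60),
      sq_nonneg (τ ^ 2)]
  have hAB : 9 / 16 + 3 / 4 * (ε + ε') - 3 / 4 * (ε ^ 2 + ε' ^ 2) + ε * ε' - ε * ε' * (ε + ε') ≤
      (1 - (1 / 2 - ε) ^ 2) * (1 - (1 / 2 - ε') ^ 2) := by
    nlinarith [sq_nonneg (ε * ε')]
  have hsq : (3 * (1 / 2 - (1 / 2 - ε) * (1 / 2 - ε'))) ^ 2 ≤
      ((1 - 2 * τ - 3 / 10 * τ ^ 2) * √((1 - (1 / 2 - ε) ^ 2) * (1 - (1 / 2 - ε') ^ 2))) ^ 2 := by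
    rw [mul_pow (1 - 2 * τ - 3 / 10 * τ ^ 2), Real.sq_sqrt (by positivity)]
    have e : (3 * (1 / 2 - (1 / 2 - ε) * (1 / 2 - ε'))) ^ 2 =
        9 * (1 / 4 + (ε + ε') / 2 - ε * ε') ^ 2 := by ring
    rw [e]
    refine hpoly.trans ?_
    have hq : 0 ≤ 1 - 4 * τ + 338 / 100 * τ ^ 2 := by nlinarith [sq_nonneg τ]
    exact (mul_le_mul_of_nonneg_left hAB hq).trans
      (mul_le_mul_of_nonneg_right hR2 (by positivity))
  have hfin : 3 * (1 / 2 - (1 / 2 - ε) * (1 / 2 - ε')) ≤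
      (1 - 2 * τ - 3 / 10 * τ ^ 2) * √((1 - (1 / 2 - ε) ^ 2) * (1 - (1 / 2 - ε') ^ 2)) :=
    le_of_sq_le_sq hsq (by positivity)
  have hb := T0_bounds
  have hpi := Real.pi_gt_three
  unfold wd
  have h0 : 0 ≤ π - 2 * T0 + x := by linarith
  have h1' : π - 2 * T0 + x ≤ π := by linarith
  rw [← Real.arccos_cos h0 h1', hcos]
  refine Real.arccos_le_arccos ?_
  rw [← Real.sqrt_mul hA.le, div_le_div_iff₀ (by positivity) (by norm_num)]
  calc (1 / 2 - (1 / 2 - ε) * (1 / 2 - ε')) * 3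
      = 3 * (1 / 2 - (1 / 2 - ε) * (1 / 2 - ε')) := by ring
    _ ≤ _ := hfin
    _ ≤ (cos x - 2 * √2 * sin x) * √((1 - (1 / 2 - ε) ^ 2) * (1 - (1 / 2 - ε') ^ 2)) := by
        gcongr

end Pool.Agent.Helper65.R1
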